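import Pool.Agent.Lib_MP_f019fe_gt.Limit

set_option autoImplicit false

/-! From a bounded-distance isometric embedding to null vectors with prescribed products. -/

namespace Pool.Agent.HExotic

open Filter Topology

/-- The indefinite hermitian form on `ℍ^{n,1}`. -/
noncomputable def form {n : ℕ} (P Q : (Fin n → Hq) × Hq) : Hq :=
  star P.2 * Q.2 - ∑ i, star (P.1 i) * Q.1 i

/-- Lift of a ball point, scaled by `c` on the right. -/
noncomputable def lft {n : ℕ} (b : Fin n → Hq) (c : Hq) : (Fin n → Hq) × Hq :=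
  (fun i => b i * c, c)

theorem form_lft {n : ℕ} (b b' : Fin n → Hq) (c c' : Hq) :
    form (lft b c) (lft b' c') = star c * hf b b' * c' := by
  unfold form lft hf
  have h : ∑ i, star (b i * c) * (b' i * c') = star c * (∑ i, star (b i) * b' i) * c' := by
    rw [Finset.mul_sum, Finset.sum_mul]
    refine Finset.sum_congr rfl fun i _ => ?_
    rw [star_mul]; simp only [mul_assoc]
  rw [h, mul_sub, sub_mul, mul_one]

/-- boundary Siegel coordinate -/
noncomputable def wb {m : ℕ} (ζ : Fin m → Hq) (s : ℝ) : Hq := ⟨nn ζ, s, 0, 0⟩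

theorem wb_re {m : ℕ} (ζ : Fin m → Hq) (s : ℝ) : (wb ζ s).re = nn ζ := rfl

theorem tendsto_sieg {k : ℕ} {ζ : ℕ → Fin k → Hq} {w : ℕ → Hq} {ζ0 : Fin k → Hq} {w0 : Hq}
    (h0 : 1 + w0 ≠ 0) (hζ : Tendsto ζ atTop (𝓝 ζ0)) (hw : Tendsto w atTop (𝓝 w0)) :
    Tendsto (fun j => sieg (ζ j) (w j)) atTop (𝓝 (sieg ζ0 w0)) := by
  have hU : Tendsto (fun j => Uq (w j)) atTop (𝓝 (Uq w0)) := by
    unfold Uq
    exact ((hw.const_add 1).inv₀ h0).const_smul (2 : ℝ)
  rw [tendsto_pi_nhds]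
  intro i
  refine Fin.lastCases ?_ (fun l => ?_) i
  · simp only [sieg, Fin.snoc_last]
    exact hU.const_sub 1
  · simp only [sieg, Fin.snoc_castSucc]
    exact (tendsto_pi_nhds.1 hζ l).mul hU

theorem tendsto_snoc {k : ℕ} {ζ : Fin k → Hq} {a : ℕ → Hq} {a0 : Hq} (h : Tendsto a atTop (𝓝 a0)) :
    Tendsto (fun j => (Fin.snoc (α := fun _ => Hq) ζ (a j) : Fin (k + 1) → Hq)) atTop
      (𝓝 (Fin.snoc (α := fun _ => Hq) ζ a0)) := by
  rw [tendsto_pi_nhds]
  intro i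
  refine Fin.lastCases ?_ (fun l => ?_) i
  · simp only [Fin.snoc_last]; exact h
  · simp only [Fin.snoc_castSucc]; exact tendsto_const_nhds

/-- the point at infinity -/
noncomputable def ainf (k : ℕ) : Fin (k + 1) → Hq := Fin.snoc (α := fun _ => Hq) (fun _ => 0) 1

theorem dl_ainf (k : ℕ) : dl (ainf k) = 0 := by
  unfold dl ainf
  rw [Fin.sum_univ_castSucc]
  simp

theorem hf_ainf_sieg {k : ℕ} (ζ : Fin k → Hq) (w : Hq) : hf (ainf k) (sieg ζ w) = Uq w := by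
  unfold hf ainf sieg
  rw [Fin.sum_univ_castSucc]
  simp

theorem fmap_sieg {m : ℕ} (ψ : (Fin m → Hq) → Hq → ℝ) (ζ : Fin m → Hq) (w : Hq) (hw : 1 + w ≠ 0) :
    fmap m ψ (sieg ζ w) = sieg (k := m + 1) (Fin.snoc ζ ((ψ ζ w : ℝ) : Hq))
      (w + ((ψ ζ w ^ 2 : ℝ) : Hq)) := by
  unfold fmap
  rw [zt_sieg ζ w hw, wt_sieg ζ w]

/-- sequences going to the boundary -/
noncomputable def seqx {m : ℕ} : Option ((Fin m → Hq) × ℝ) → ℕ → Fin (m + 1) → Hq
  | none, k => sieg (fun _ => 0) (((k + 1 : ℕ) : ℝ) : Hq)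
  | some p, k => sieg p.1 (wb p.1 p.2 + ((1 / ((k : ℝ) + 1) : ℝ) : Hq))

noncomputable def limx {m : ℕ} (ψ : (Fin m → Hq) → Hq → ℝ) :
    Option ((Fin m → Hq) × ℝ) → Fin (m + 1 + 1) → Hq
  | none => ainf (m + 1)
  | some p => sieg (k := m + 1) (Fin.snoc p.1 ((ψ p.1 (wb p.1 p.2) : ℝ) : Hq))
      (wb p.1 p.2 + ((ψ p.1 (wb p.1 p.2) ^ 2 : ℝ) : Hq))

theorem seqx_ball {m : ℕ} (p : Option ((Fin m → Hq) × ℝ)) (k : ℕ) : 0 < dl (seqx p k) := by
  rcases p with _ | ⟨ζ, s⟩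
  · have h1 : (1 : Hq) + (((k + 1 : ℕ) : ℝ) : Hq) ≠ 0 := one_add_ne (by
      rw [Quaternion.re_coe]; positivity)
    unfold seqx
    rw [dl_sieg _ _ h1]
    have := norm_pos_iff.2 (Uq_ne_zero h1)
    have h2 : nn (fun _ : Fin m => (0 : Hq)) = 0 := by simp [nn]
    rw [h2, Quaternion.re_coe, sub_zero]
    positivity
  · have h0 : 0 < (1 / ((k : ℝ) + 1) : ℝ) := by positivity
    have h1 : (1 : Hq) + (wb ζ s + ((1 / ((k : ℝ) + 1) : ℝ) : Hq)) ≠ 0 := one_add_ne (by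
      rw [Quaternion.re_add, Quaternion.re_coe, wb_re]
      have := nn_nonneg ζ
      positivity)
    unfold seqx
    rw [dl_sieg _ _ h1]
    have := norm_pos_iff.2 (Uq_ne_zero h1)
    rw [Quaternion.re_add, Quaternion.re_coe, wb_re]
    have h3 : nn ζ + 1 / ((k : ℝ) + 1) - nn ζ = 1 / ((k : ℝ) + 1) := by ring
    dsimp only
    rw [h3]
    exact mul_pos (pow_pos this 2) h0

theorem dl_limx {m : ℕ} (ψ : (Fin m → Hq) → Hq → ℝ) (p : Option ((Fin m → Hq) × ℝ)) :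
    dl (limx ψ p) = 0 := by
  rcases p with _ | ⟨ζ, s⟩
  · exact dl_ainf _
  · unfold limx
    have h0 : 0 ≤ (wb ζ s).re - nn ζ := by rw [wb_re]; simp
    rw [dl_sieg _ _ (ne_add _ h0), height_snoc, wb_re]
    simp

theorem tendsto_seqx {m : ℕ} (ψ : (Fin m → Hq) → Hq → ℝ) (hc : ∀ ζ, Continuous (ψ ζ))
    (p : Option ((Fin m → Hq) × ℝ)) :
    Tendsto (fun k => fmap m ψ (seqx p k)) atTop (𝓝 (limx ψ p)) := by
  rcases p with _ | ⟨ζ, s⟩
  · unfold seqx limx
    have h1 : ∀ k : ℕ, (1 : Hq) + (((k + 1 : ℕ) : ℝ) : Hq) ≠ 0 := fun k => one_add_ne (by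
      rw [Quaternion.re_coe]; positivity)
    have e : ∀ k : ℕ, fmap m ψ (sieg (fun _ => 0) (((k + 1 : ℕ) : ℝ) : Hq)) = _ :=
      fun k => fmap_sieg ψ _ _ (h1 k)
    simp only [e]
    obtain ⟨a, ha⟩ : ∃ a : ℕ → ℝ, ∀ k : ℕ, ψ (fun _ => 0) (((k + 1 : ℕ) : ℝ) : Hq) = a k :=
      ⟨_, fun _ => rfl⟩
    simp only [ha]
    -- the scalar `U`
    have hU : ∀ (k : ℕ) (c : ℝ), Uq ((((k + 1 : ℕ) : ℝ) : Hq) + ((c ^ 2 : ℝ) : Hq)) =
        ((2 / (1 + ((k + 1 : ℕ) : ℝ) + c ^ 2) : ℝ) : Hq) := by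
      intro k c
      unfold Uq
      rw [show (1 : Hq) + ((((k + 1 : ℕ) : ℝ) : Hq) + ((c ^ 2 : ℝ) : Hq)) =
        ((1 + ((k + 1 : ℕ) : ℝ) + c ^ 2 : ℝ) : Hq) by
          rw [Quaternion.coe_add, Quaternion.coe_add, Quaternion.coe_one]; abel]
      rw [← Quaternion.coe_inv, div_eq_mul_inv, Quaternion.coe_mul, ← Quaternion.coe_mul_eq_smul]
    have hbig : ∀ k : ℕ, (0 : ℝ) < 1 + ((k + 1 : ℕ) : ℝ) + a k ^ 2 := fun k => by positivity
    have hlim0 : Tendsto (fun k : ℕ => 2 / (1 + ((k + 1 : ℕ) : ℝ) + a k ^ 2)) atTop (𝓝 0) := by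
      have h2 : Tendsto (fun k : ℕ => 2 * (1 / ((k : ℝ) + 1))) atTop (𝓝 (2 * 0)) :=
        tendsto_one_div_add_atTop_nhds_zero_nat.const_mul 2
      rw [mul_zero] at h2
      refine squeeze_zero (fun k => (div_pos two_pos (hbig k)).le) (fun k => ?_) h2
      rw [mul_one_div]
      apply div_le_div_of_nonneg_left (by norm_num) (by positivity)
      push_cast
      nlinarith [sq_nonneg (a k)]
    have hlim1 : Tendsto (fun k : ℕ => a k * (2 / (1 + ((k + 1 : ℕ) : ℝ) + a k ^ 2))) atTop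
        (𝓝 0) := by
      have h3 : Tendsto (fun k : ℕ => Real.sqrt (1 / ((k : ℝ) + 1))) atTop (𝓝 0) := by
        have := (Real.continuous_sqrt.tendsto 0).comp
          (tendsto_one_div_add_atTop_nhds_zero_nat (𝕜 := ℝ))
        rw [Real.sqrt_zero] at this
        exact this
      rw [tendsto_zero_iff_norm_tendsto_zero]
      refine squeeze_zero (fun k => norm_nonneg _) (fun k => ?_) h3
      rw [Real.norm_eq_abs]
      apply Real.le_sqrt_of_sq_le
      rw [sq_abs, mul_pow, div_pow, ← mul_div_assoc, div_le_div_iff₀ (by positivity) (by positivity)]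
      push_cast
      set t : ℝ := (k : ℝ) + 1
      have ht : 0 < t := by positivity
      nlinarith [sq_nonneg (t - a k ^ 2), sq_nonneg (a k), mul_nonneg ht.le (sq_nonneg (a k))]
    rw [tendsto_pi_nhds]
    intro i
    refine Fin.lastCases ?_ (fun l => ?_) i
    · simp only [sieg, Fin.snoc_last, ainf]
      simp only [hU]
      have h5 := ((Quaternion.continuous_coe.tendsto 0).comp hlim0).const_sub (1 : Hq)
      rw [Quaternion.coe_zero, sub_zero] at h5
      exact h5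
    · simp only [sieg, Fin.snoc_castSucc, ainf]
      simp only [hU]
      refine Fin.lastCases ?_ (fun l' => ?_) l
      · simp only [Fin.snoc_last, ← Quaternion.coe_mul]
        have h5 := (Quaternion.continuous_coe.tendsto 0).comp hlim1
        rw [Quaternion.coe_zero] at h5
        exact h5
      · simp only [Fin.snoc_castSucc, zero_mul]
        exact tendsto_const_nhds
  · unfold seqx limx
    have h0 : 0 ≤ (wb ζ s).re - nn ζ := by rw [wb_re]; simp
    have h1 : ∀ k : ℕ, (1 : Hq) + (wb ζ s + ((1 / ((k : ℝ) + 1) : ℝ) : Hq)) ≠ 0 := fun k =>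
      one_add_ne (by
        rw [Quaternion.re_add, Quaternion.re_coe, wb_re]
        have := nn_nonneg ζ
        positivity)
    have e : ∀ k : ℕ, fmap m ψ (sieg ζ (wb ζ s + ((1 / ((k : ℝ) + 1) : ℝ) : Hq))) = _ :=
      fun k => fmap_sieg ψ _ _ (h1 k)
    simp only [e]
    have hw : Tendsto (fun k : ℕ => wb ζ s + ((1 / ((k : ℝ) + 1) : ℝ) : Hq)) atTop
        (𝓝 (wb ζ s)) := by
      have := ((Quaternion.continuous_coe.tendsto 0).comp
        (tendsto_one_div_add_atTop_nhds_zero_nat (𝕜 := ℝ))).const_add (wb ζ s)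
      simpa using this
    have hψ : Tendsto (fun k : ℕ => ψ ζ (wb ζ s + ((1 / ((k : ℝ) + 1) : ℝ) : Hq))) atTop
        (𝓝 (ψ ζ (wb ζ s))) := ((hc ζ).tendsto _).comp hw
    apply tendsto_sieg (ne_add _ h0)
    · apply tendsto_snoc
      exact (Quaternion.continuous_coe.tendsto _).comp hψ
    · exact hw.add ((Quaternion.continuous_coe.tendsto _).comp (hψ.pow 2))

end Pool.Agent.HExotic
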