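import Pool.Agent.Lib_MP_f019fe_gt.Vec

set_option autoImplicit false

/-! Linear algebra of the form on `ℍ^{n,1}`. -/

namespace Pool.Agent.HExotic

/-- right multiplication -/
noncomputable def rm {n : ℕ} (P : (Fin n → Hq) × Hq) (c : Hq) : (Fin n → Hq) × Hq :=
  (fun i => P.1 i * c, P.2 * c)

variable {n : ℕ}

theorem form_add_right (P Q R : (Fin n → Hq) × Hq) : form P (Q + R) = form P Q + form P R := by
  unfold form
  simp only [Prod.fst_add, Prod.snd_add, Pi.add_apply, mul_add, Finset.sum_add_distrib]
  abel

theorem form_sub_right (P Q R : (Fin n → Hq) × Hq) : form P (Q - R) = form P Q - form P R := by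
  unfold form
  simp only [Prod.fst_sub, Prod.snd_sub, Pi.sub_apply, mul_sub, Finset.sum_sub_distrib]
  abel

theorem star_form (P Q : (Fin n → Hq) × Hq) : star (form P Q) = form Q P := by
  unfold form
  rw [star_sub, star_sum, star_mul, star_star]
  simp only [star_mul, star_star]

theorem form_add_left (P Q R : (Fin n → Hq) × Hq) : form (P + Q) R = form P R + form Q R := by
  rw [← star_form, form_add_right, star_add, star_form, star_form]

theorem form_sub_left (P Q R : (Fin n → Hq) × Hq) : form (P - Q) R = form P R - form Q R := by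
  rw [← star_form, form_sub_right, star_sub, star_form, star_form]

theorem form_rm_right (P Q : (Fin n → Hq) × Hq) (c : Hq) : form P (rm Q c) = form P Q * c := by
  unfold form rm
  rw [sub_mul, Finset.sum_mul, mul_assoc]
  simp only [mul_assoc]

theorem form_rm_left (P Q : (Fin n → Hq) × Hq) (c : Hq) : form (rm P c) Q = star c * form P Q := by
  rw [← star_form, form_rm_right, star_mul, star_form]

theorem form_smul_right (P Q : (Fin n → Hq) × Hq) (r : ℝ) : form P (r • Q) = r • form P Q := by
  unfold form
  simp only [Prod.smul_fst, Prod.smul_snd, Pi.smul_apply, mul_smul_comm, smul_sub,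
    Finset.smul_sum]

theorem form_sum_right {κ : Type*} (s : Finset κ) (P : (Fin n → Hq) × Hq)
    (f : κ → (Fin n → Hq) × Hq) : form P (∑ l ∈ s, f l) = ∑ l ∈ s, form P (f l) := by
  classical
  induction s using Finset.induction_on with
  | empty => simp [form]
  | insert a s ha ih => rw [Finset.sum_insert ha, Finset.sum_insert ha, form_add_right, ih]

theorem form_self (x : (Fin n → Hq) × Hq) : form x x = ((‖x.2‖ ^ 2 - nn x.1 : ℝ) : Hq) := by
  unfold form
  rw [nn_eq_normSq, Quaternion.coe_sub, Quaternion.star_mul_self,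
    Quaternion.normSq_eq_norm_mul_self, sq]

theorem form_self_re (x : (Fin n → Hq) × Hq) : form x x = (((form x x).re : ℝ) : Hq) := by
  rw [form_self, Quaternion.re_coe]

/-- negativity on the orthogonal of a null vector -/
theorem form_nonpos {P O x : (Fin n → Hq) × Hq} (hP : form P P = 0) (hPO : form P O = 1)
    (hx : form P x = 0) : (form x x).re ≤ 0 := by
  rw [form_self, Quaternion.re_coe]
  rw [form_self] at hP
  have hP' : ‖P.2‖ ^ 2 - nn P.1 = 0 :=
    Quaternion.coe_injective (hP.trans Quaternion.coe_zero.symm)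
  have hP2 : P.2 ≠ 0 := by
    intro h
    rw [h, norm_zero] at hP'
    have h1 : nn P.1 = 0 := by linarith
    have h2 : ∀ i, P.1 i = 0 := by
      intro i
      have h3 : ‖P.1 i‖ ^ 2 ≤ nn P.1 :=
        Finset.single_le_sum (f := fun i => ‖P.1 i‖ ^ 2) (fun _ _ => by positivity)
          (Finset.mem_univ _)
      rw [h1] at h3
      have h4 : ‖P.1 i‖ = 0 := by nlinarith [norm_nonneg (P.1 i)]
      exact norm_eq_zero.1 h4
    unfold form at hPO
    rw [h] at hPO
    simp only [h2] at hPO
    simp at hPO
  have hn : 0 < ‖P.2‖ := norm_pos_iff.2 hP2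
  have h1 : star P.2 * x.2 = ∑ i, star (P.1 i) * x.1 i := sub_eq_zero.1 hx
  have h2 : ‖P.2‖ * ‖x.2‖ ≤ Real.sqrt (nn P.1) * Real.sqrt (nn x.1) := by
    rw [← Quaternion.norm_star P.2, ← norm_mul, h1]
    exact norm_ip_le _ _
  have h3 : Real.sqrt (nn P.1) = ‖P.2‖ := by
    rw [show nn P.1 = ‖P.2‖ ^ 2 by linarith]
    exact Real.sqrt_sq hn.le
  rw [h3] at h2
  have h4 : ‖x.2‖ ≤ Real.sqrt (nn x.1) := le_of_mul_le_mul_left h2 hn
  have h5 : Real.sqrt (nn x.1) ^ 2 = nn x.1 := Real.sq_sqrt (nn_nonneg _)
  have h6 := norm_nonneg x.2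
  nlinarith [Real.sqrt_nonneg (nn x.1)]

/-- Cauchy-Schwarz on the orthogonal of a null vector -/
theorem form_cs {P O x y : (Fin n → Hq) × Hq} (hP : form P P = 0) (hPO : form P O = 1)
    (hx : form P x = 0) (hy : form P y = 0) :
    ‖form x y‖ ^ 2 ≤ (form x x).re * (form y y).re := by
  have hxx := form_nonpos hP hPO hx
  have hyy := form_nonpos hP hPO hy
  set z := form x y with hz
  obtain ⟨N, hN⟩ : ∃ N : ℝ, ‖z‖ ^ 2 = N := ⟨_, rfl⟩
  have hN0 : 0 ≤ N := by rw [← hN]; positivity
  have hzz : z * star z = ((N : ℝ) : Hq) := by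
    rw [Quaternion.self_mul_star, Quaternion.normSq_eq_norm_mul_self, ← hN, sq]
  rw [hN]
  have key : ∀ r : ℝ, 0 ≤ (-(N * (form y y).re)) * (r * r) + (-(2 * N)) * r +
      (-(form x x).re) := by
    intro r
    have h1 : form P (x + rm y (r • star z)) = 0 := by
      rw [form_add_right, form_rm_right, hx, hy]; simp
    have h2 := form_nonpos hP hPO h1
    have h3 : form (x + rm y (r • star z)) (x + rm y (r • star z)) =
        (((form x x).re + 2 * r * N + r * r * N * (form y y).re : ℝ) : Hq) := by
      rw [form_add_right, form_add_left, form_add_left, form_rm_right, form_rm_right,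
        form_rm_left, form_rm_left, ← star_form x y, ← hz]
      have hs : star (r • star z) = r • z := by ext <;> simp
      rw [hs, form_self_re x, form_self_re y]
      simp only [smul_mul_assoc, mul_smul_comm, mul_assoc, hzz]
      rw [Quaternion.coe_commutes, ← mul_assoc z, hzz]
      ext <;> simp
      ring
    rw [h3, Quaternion.re_coe] at h2
    nlinarith
  have hd := discrim_le_zero key
  unfold discrim at hd
  rcases eq_or_lt_of_le hN0 with h0 | h0
  · rw [← h0]; nlinarith
  · have : N * (N - (form x x).re * (form y y).re) ≤ 0 := by nlinarith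
    have h5 : N - (form x x).re * (form y y).re ≤ 0 := by
      by_contra hcon
      rw [not_le] at hcon
      have := mul_pos h0 hcon
      linarith
    linarith

end Pool.Agent.HExotic
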