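import Pool.Agent.Lib_MP_f019fe_gt.Form

set_option autoImplicit false

/-! Dimension count and the Parseval identity. -/

namespace Pool.Agent.HExotic

/-- The linear map `(α, β, c) ↦ P α + O β + ∑ c_l ξ_l`. -/
noncomputable def Phi {m : ℕ} (P O : (Fin (m + 1) → Hq) × Hq)
    (ξ : Fin m × Fin 4 → (Fin (m + 1) → Hq) × Hq) :
    ((Hq × Hq) × (Fin m × Fin 4 → ℝ)) →ₗ[ℝ] (Fin (m + 1) → Hq) × Hq where
  toFun p := rm P p.1.1 + rm O p.1.2 + ∑ l, p.2 l • ξ l
  map_add' p q := by
    have h1 : ∀ (P : (Fin (m + 1) → Hq) × Hq) (a b : Hq), rm P (a + b) = rm P a + rm P b := by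
      intro P a b; unfold rm; ext i <;> simp [mul_add]
    simp only [Prod.fst_add, Prod.snd_add, Pi.add_apply, h1, add_smul, Finset.sum_add_distrib]
    abel
  map_smul' r p := by
    have h1 : ∀ (P : (Fin (m + 1) → Hq) × Hq) (a : Hq), rm P (r • a) = r • rm P a := by
      intro P a; unfold rm; ext i <;> simp
    simp only [Prod.smul_fst, Prod.smul_snd, Pi.smul_apply, h1, RingHom.id_apply, smul_add,
      Finset.smul_sum, smul_smul, smul_eq_mul]

theorem form_Phi {m : ℕ} (P O : (Fin (m + 1) → Hq) × Hq)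
    (ξ : Fin m × Fin 4 → (Fin (m + 1) → Hq) × Hq) (R : (Fin (m + 1) → Hq) × Hq)
    (p : (Hq × Hq) × (Fin m × Fin 4 → ℝ)) :
    form R (Phi P O ξ p) = form R P * p.1.1 + form R O * p.1.2 + ∑ l, p.2 l • form R (ξ l) := by
  change form R (rm P p.1.1 + rm O p.1.2 + ∑ l, p.2 l • ξ l) = _
  rw [form_add_right, form_add_right, form_rm_right, form_rm_right, form_sum_right]
  simp only [form_smul_right]

/-- Every vector orthogonal to `P` and `O` is a real combination of the `ξ`'s. -/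
theorem exists_comb {m : ℕ} {P O : (Fin (m + 1) → Hq) × Hq}
    {ξ : Fin m × Fin 4 → (Fin (m + 1) → Hq) × Hq} (hP : form P P = 0) (hO : form O O = 0)
    (hPO : form P O = 1) (h1 : ∀ l, form P (ξ l) = 0) (h2 : ∀ l, form O (ξ l) = 0)
    (h3 : ∀ l l', (form (ξ l) (ξ l')).re = if l = l' then -2 else 0)
    {x : (Fin (m + 1) → Hq) × Hq} (hx1 : form P x = 0) (hx2 : form O x = 0) :
    ∃ c : Fin m × Fin 4 → ℝ, x = ∑ l, c l • ξ l := by
  have hOP : form O P = 1 := by rw [← star_form, hPO, star_one]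
  -- coordinates of a preimage
  have hc1 : ∀ p, form P (Phi P O ξ p) = p.1.2 := by
    intro p; rw [form_Phi, hP, hPO]; simp [h1]
  have hc2 : ∀ p, form O (Phi P O ξ p) = p.1.1 := by
    intro p; rw [form_Phi, hO, hOP]; simp [h2]
  have hc3 : ∀ p l, (form (ξ l) (Phi P O ξ p)).re = -2 * p.2 l := by
    intro p l
    have e1 : form (ξ l) P = 0 := by rw [← star_form, h1, star_zero]
    have e2 : form (ξ l) O = 0 := by rw [← star_form, h2, star_zero]
    rw [form_Phi, e1, e2, zero_mul, zero_mul, zero_add, zero_add, re_sum]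
    simp only [Quaternion.re_smul, h3, smul_eq_mul, mul_ite, mul_zero]
    rw [Finset.sum_ite_eq]
    simp [mul_comm]
  have hinj : Function.Injective (Phi P O ξ) := by
    rw [injective_iff_map_eq_zero]
    intro p hp
    have f0 : ∀ R : (Fin (m + 1) → Hq) × Hq, form R 0 = 0 := by intro R; simp [form]
    have e1 := hc1 p
    have e2 := hc2 p
    rw [hp, f0] at e1 e2
    refine Prod.ext (Prod.ext e2.symm e1.symm) ?_
    ext l
    have e3 := hc3 p l
    rw [hp, f0] at e3
    have e4 : (0 : ℝ) = -2 * p.2 l := e3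
    simp only [Prod.snd_zero, Pi.zero_apply]
    linarith
  have hfin : Module.finrank ℝ ((Hq × Hq) × (Fin m × Fin 4 → ℝ)) =
      Module.finrank ℝ ((Fin (m + 1) → Hq) × Hq) := by
    have e1 : Module.finrank ℝ (Fin m × Fin 4 → ℝ) = m * 4 := by
      rw [Module.finrank_fintype_fun_eq_card]; simp
    have e2 : Module.finrank ℝ (Fin (m + 1) → Hq) = (m + 1) * 4 := by
      rw [Module.finrank_pi_fintype]
      simp only [Quaternion.finrank_eq_four, Finset.sum_const, Finset.card_univ,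
        Fintype.card_fin, smul_eq_mul]
    rw [Module.finrank_prod, Module.finrank_prod, Module.finrank_prod, e1, e2,
      Quaternion.finrank_eq_four]
    ring
  have hsurj : Function.Surjective (Phi P O ξ) :=
    (LinearMap.injective_iff_surjective_of_finrank_eq_finrank hfin).1 hinj
  obtain ⟨p, hp⟩ := hsurj x
  refine ⟨p.2, ?_⟩
  have e1 := hc1 p
  have e2 := hc2 p
  rw [hp, hx1] at e1
  rw [hp, hx2] at e2
  rw [← hp]
  change rm P p.1.1 + rm O p.1.2 + ∑ l, p.2 l • ξ l = _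
  rw [← e1, ← e2]
  have hz : ∀ P : (Fin (m + 1) → Hq) × Hq, rm P 0 = 0 := by
    intro P; unfold rm; ext i <;> simp
  rw [hz, hz, zero_add, zero_add]

theorem parseval_one {m : ℕ} {P O : (Fin (m + 1) → Hq) × Hq}
    {ξ : Fin m × Fin 4 → (Fin (m + 1) → Hq) × Hq} (hP : form P P = 0) (hO : form O O = 0)
    (hPO : form P O = 1) (h1 : ∀ l, form P (ξ l) = 0) (h2 : ∀ l, form O (ξ l) = 0)
    (h3 : ∀ l l', (form (ξ l) (ξ l')).re = if l = l' then -2 else 0) (l0 : Fin m × Fin 4)
    (u : Hq) (hu : star u * u = 1) :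
    ∑ l, (form (ξ l) (ξ l0) * u).re ^ 2 = 4 := by
  have hx1 : form P (rm (ξ l0) u) = 0 := by rw [form_rm_right, h1, zero_mul]
  have hx2 : form O (rm (ξ l0) u) = 0 := by rw [form_rm_right, h2, zero_mul]
  obtain ⟨c, hc⟩ := exists_comb hP hO hPO h1 h2 h3 hx1 hx2
  have e1 : ∀ l, (form (ξ l) (ξ l0) * u).re = -2 * c l := by
    intro l
    rw [← form_rm_right, hc, form_sum_right, re_sum]
    simp only [form_smul_right, Quaternion.re_smul, h3, smul_eq_mul, mul_ite, mul_zero]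
    rw [Finset.sum_ite_eq]
    simp [mul_comm]
  have e2 : (form (rm (ξ l0) u) (rm (ξ l0) u)).re = -2 := by
    rw [form_rm_right, form_rm_left, form_self_re (ξ l0)]
    have := h3 l0 l0
    rw [if_pos rfl] at this
    rw [this, mul_assoc, Quaternion.coe_commutes, ← mul_assoc, hu, one_mul, Quaternion.re_coe]
  have e3 : (form (rm (ξ l0) u) (rm (ξ l0) u)).re = ∑ l, c l * (-2 * c l) := by
    conv_lhs => rw [hc, ← star_form]
    rw [Quaternion.re_star, form_sum_right, re_sum]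
    refine Finset.sum_congr rfl fun l _ => ?_
    rw [form_smul_right, Quaternion.re_smul, ← star_form, Quaternion.re_star, ← hc,
      form_rm_right, e1, smul_eq_mul]
  rw [e2] at e3
  simp only [e1]
  have : ∑ l, (-2 * c l) ^ 2 = -2 * ∑ l, c l * (-2 * c l) := by
    rw [Finset.mul_sum]
    exact Finset.sum_congr rfl fun l _ => by ring
  rw [this, ← e3]
  norm_num

/-- quaternion with given coordinates -/
def qu (a b c d : ℝ) : Hq := ⟨a, b, c, d⟩

theorem parseval {m : ℕ} {P O : (Fin (m + 1) → Hq) × Hq}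
    {ξ : Fin m × Fin 4 → (Fin (m + 1) → Hq) × Hq} (hP : form P P = 0) (hO : form O O = 0)
    (hPO : form P O = 1) (h1 : ∀ l, form P (ξ l) = 0) (h2 : ∀ l, form O (ξ l) = 0)
    (h3 : ∀ l l', (form (ξ l) (ξ l')).re = if l = l' then -2 else 0) (l0 : Fin m × Fin 4) :
    ∑ l, ‖form (ξ l) (ξ l0)‖ ^ 2 = 16 := by
  have hu : ∀ a b c d : ℝ, a ^ 2 + b ^ 2 + c ^ 2 + d ^ 2 = 1 → star (qu a b c d) * qu a b c d = 1 := by
    intro a b c d h
    ext <;> simp [qu, Quaternion.re_mul, Quaternion.imI_mul, Quaternion.imJ_mul,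
      Quaternion.imK_mul, Quaternion.re_one, Quaternion.imI_one, Quaternion.imJ_one,
      Quaternion.imK_one] <;> linarith
  have a1 := parseval_one hP hO hPO h1 h2 h3 l0 (qu 1 0 0 0) (hu _ _ _ _ (by norm_num))
  have a2 := parseval_one hP hO hPO h1 h2 h3 l0 (qu 0 1 0 0) (hu _ _ _ _ (by norm_num))
  have a3 := parseval_one hP hO hPO h1 h2 h3 l0 (qu 0 0 1 0) (hu _ _ _ _ (by norm_num))
  have a4 := parseval_one hP hO hPO h1 h2 h3 l0 (qu 0 0 0 1) (hu _ _ _ _ (by norm_num))
  have : ∀ l, ‖form (ξ l) (ξ l0)‖ ^ 2 =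
      (form (ξ l) (ξ l0) * qu 1 0 0 0).re ^ 2 + (form (ξ l) (ξ l0) * qu 0 1 0 0).re ^ 2 +
      (form (ξ l) (ξ l0) * qu 0 0 1 0).re ^ 2 + (form (ξ l) (ξ l0) * qu 0 0 0 1).re ^ 2 := by
    intro l
    rw [norm_sq_eq]
    simp [qu, Quaternion.re_mul]
  simp only [this, Finset.sum_add_distrib, a1, a2, a3, a4]
  norm_num

end Pool.Agent.HExotic
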